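import Pool.Agent.H198R2.CC.Not
import Pool.Agent.H198R2.CC.Fischer

/-!
# Adaptive rounds of monotone comparator circuits against NC and P

The functions are restrictions of the solvability of path systems, computed by monotone circuits of
unbounded fan-in and logarithmic depth.
-/

namespace Pool.Agent.Results.MP_9a4607_lc.AdaptiveRounds

open H534R2.Gen (PS Solv MC)
open H198R2.CC

/-- **Adaptive rounds of monotone comparator circuits.**
(1) For `1 ≤ h` and `2 M (h+1)⁴ + 1 ≤ |V|` there is a set `H` of at most `8 M (h+1)⁸` variables of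
path systems on `V` such that on inputs inside `H` the solvability of `t` is computed by a
monotone circuit (of fan-in two, and also one of unbounded fan-in and depth `2h+2`) of length
`≤ 32 M (h+1)⁸ + 1`, but if it is decided by `d` rounds, the round `i` consisting of `w i`
monotone comparator circuits that may depend on the answers of the earlier rounds, and one
last comparator circuit that may depend on all answers, the total number of wires being at most
`2 ^ h` for all answers, then `∏ (w i + 1) ≥ M + 1`.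
(2) Conversely `d` adaptive rounds of one monotone comparator circuit each are enough for every
comparator circuit with any number of NOT gates, on the inputs inside a set of fewer than
`2 ^ d` variables, with total size multiplied by `O(2 ^ d)` only. -/
theorem _root_.Pool.Agent.Results.MP_9a4607_lc.AdaptiveRounds.result :
    (∀ h M : ℕ, 1 ≤ h → ∀ (V : Type) [Fintype V] (t : V),
      2 * M * (h + 1) ^ 4 + 1 ≤ Fintype.card V →
      ∃ H : PS V → Prop, {x : PS V | H x}.ncard ≤ 8 * M * (h + 1) ^ 8 ∧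
        (∃ L : List ((PS V → Prop) → Prop), MC L ∧ L.length ≤ 32 * M * (h + 1) ^ 8 + 1 ∧
          ∃ f ∈ L, ∀ v : PS V → Prop, (∀ x, v x → H x) → (f v ↔ Solv v t)) ∧
        (∃ L : List (ℕ × ((PS V → Prop) → Prop)), UC L ∧ L.length ≤ 32 * M * (h + 1) ^ 8 + 1 ∧
          ∃ f, (2 * h + 2, f) ∈ L ∧ ∀ v : PS V → Prop, (∀ x, v x → H x) → (f v ↔ Solv v t)) ∧
        ∀ (d : ℕ) (w : ℕ → ℕ) (N : ℕ → ℕ → (ℕ → ℕ → Prop) → CNet (PS V)),
          (∀ i k A A', (∀ j < i, ∀ k' < w j, (A j k' ↔ A' j k')) → N i k A = N i k A') →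
          (∀ A, (∑ i ∈ Finset.range d, ∑ k ∈ Finset.range (w i), (N i k A).wires)
            + (N d 0 A).wires ≤ 2 ^ h) →
          (∀ v : PS V → Prop, (∀ x, v x → H x) → ∃ A : ℕ → ℕ → Prop,
            (∀ i < d, ∀ k < w i, (A i k ↔ (N i k A).Accepts v)) ∧
            ((N d 0 A).Accepts v ↔ Solv v t)) →
          M + 1 ≤ ∏ i ∈ Finset.range d, (w i + 1)) ∧
    (∀ (X : Type) (N : NNet X) (S : Finset X) (d : ℕ), S.card + 1 ≤ 2 ^ d →
      ∃ P : ℕ → ℕ → (ℕ → ℕ → Prop) → CNet X,
        (∀ i k A A', (∀ j < i, ∀ k' < 1, (A j k' ↔ A' j k')) → P i k A = P i k A') ∧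
        (∀ A, (∑ i ∈ Finset.range d, ∑ k ∈ Finset.range 1, (P i k A).wires) + (P d 0 A).wires
          ≤ (d + 2 * N.wires) * (S.card + 2 ^ d + 1)) ∧
        ∀ v : X → Prop, (∀ x, v x → x ∈ S) → ∃ A : ℕ → ℕ → Prop,
          (∀ i < d, ∀ k < 1, (A i k ↔ (P i k A).Accepts v)) ∧
          ((P d 0 A).Accepts v ↔ N.Accepts v)) := by
  refine ⟨fun h M hh V _ t hV => ?_, fun _ N S d hd => fischer N S d hd⟩
  obtain ⟨H, h1, h2, h3, -, h5⟩ := nots_host h M hh V t hV
  exact ⟨H, h1, h2, h3, h5⟩

end Pool.Agent.Results.MP_9a4607_lc.AdaptiveRounds
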