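import Pool.Agent.H560R2.Cmp3

/-!
Comparator circuits with few negations need exponential size for systems of linear equations.

A comparator maps the bits `a, b` to `a ∧ b, a ∨ b`; bits cannot be copied. Comparator circuits of
polynomial size characterise `CC`; the inputs may also be constants and negated bits. Here the
circuits may contain further gates that apply arbitrary functions to some wires, for instance NOT
gates.

The function: solvability of the subsets of a fixed sparse system of at most `N` linear equations
over the field with two elements in `N` variables. Its complement is monotone and has a monotone
span program over this field with one row for each equation, so it is in the class parity-L, which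
is contained in `NC^2`.

The proof: the rank of submatrices is bisubmodular, so comparators do not increase the sum over
all wires of the rank measure. For a lifted expanding system the measure of the function is
exponential. For few negations many disjoint copies are used: a chain of solvable systems is built
copy by copy; if in some copy no such system changes the bits that enter the arbitrary gates, then
these gates can be replaced by constants, and their inputs that were `0` can be tapped, since wires
that are replaced by constants are free to be used.
-/

namespace Pool.Agent.Results.MP_9a4607_lc.FewNegations

open Pool.Agent.H560R2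

/-- A linear equation over the field with two elements: the sum of the variables `e.1 0`, ...,
`e.1 7` is `e.2`. -/
abbrev Equation (N : ℕ) : Type := (Fin 8 → Fin N) × ZMod 2

/-- The system of the equations `G i` with `x i = true` is solvable. -/
def Solvable {N m : ℕ} (G : Fin m → Equation N) (x : Fin m → Bool) : Prop :=
  ∃ a : Fin N → ZMod 2, ∀ i, x i = true → ∑ j, a ((G i).1 j) = (G i).2

/-- Circuits over the input bits `V`: each wire starts with a constant or with a literal (the
literal `(v, b)` is true if the bit `v` is equal to `b`), then the gates act. -/
structure ComparatorCircuit (V : Type) where
  wires : ℕ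
  init : Fin wires → Bool ⊕ (V × Bool)
  gates : List (CG wires)
  out : Fin wires

/-- The value of the output wire. -/
def ComparatorCircuit.value {V : Type} (C : ComparatorCircuit V) (x : V → Bool) : Bool :=
  CG.run C.gates (fun k => Sum.elim id (fun l => decide (x l.1 = l.2)) (C.init k)) C.out

/-- There is a constant `c` such that for all `N` and `t` there is a set `G` of `m ≤ N` linear
equations over the field with two elements in `N` variables, eight in each equation, with the
following properties.

(1) There is a monotone span program over this field with `m` rows for unsolvability: it has a row
for each equation and a target, and the system of the equations `G i` with `x i = true` is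
unsolvable if and only if the target is in the span of their rows.

(2) Let a comparator circuit with further gates that act arbitrarily on some wires decide
unsolvability of the subsystems of `G`. If the product over the further gates of the numbers
`|S| + 1`, where `S` is the set of wires on which the gate acts, plus the number of input bits that
are used negated (those in `Z`) is at most `t + 1`, then `N ≤ c (t + 1) (log W + 1)`, where `W` is
the number of wires. -/
theorem result : ∃ c : ℕ, ∀ N t : ℕ, ∃ (m : ℕ) (G : Fin m → Equation N), m ≤ N ∧
    (∃ (row : Fin m → Fin (N + 1) → ZMod 2) (target : Fin (N + 1) → ZMod 2), ∀ x : Fin m → Bool,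
      target ∈ Submodule.span (ZMod 2) (row '' {i | x i = true}) ↔ ¬ Solvable G x) ∧
    ∀ (C : ComparatorCircuit (Fin m)) (Z : Finset (Fin m)),
      (∀ k v, C.init k = Sum.inr (v, false) → v ∈ Z) →
      CG.prod C.gates + Z.card ≤ t + 1 →
      (∀ x, C.value x = true ↔ ¬ Solvable G x) →
      N ≤ c * (t + 1) * (Nat.log 2 C.wires + 1) := by
  classical
  obtain ⟨c, hc0, h0⟩ := lin_blocks
  refine ⟨c, fun N t => ?_⟩
  by_cases hN : c * (t + 1) ≤ N
  · obtain ⟨m, s, G, hm, hNs, hB⟩ := h0 N (t + 1) (by omega) hN
    refine ⟨m, G, hm, ⟨lrow G, ltgt N, fun x => solv_span G x⟩, ?_⟩
    intro C Z hZ hprod hC
    have h := ((hB ℚ two_ne_zero).restrict Z).comparator C.gates C.out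
      (fun x k => Sum.elim id (fun l : Fin m × Bool => decide (rst Z x l.1 = l.2)) (C.init k))
      (by
        intro k
        rcases hk : C.init k with b | ⟨v, b⟩
        · exact Or.inl ⟨b, fun x => rfl⟩
        · rcases rst_lit Z (v, b) (fun hb => hZ k v (by
            simp only at hb
            rw [hk, hb])) with ⟨c, hc⟩ | ⟨i, hi⟩
          · exact Or.inl ⟨c, fun x => hc x⟩
          · exact Or.inr ⟨i, fun x => hi x⟩)
      (fun x => hC (rst Z x)) (by omega)
    have hne : C.wires ≠ 0 := by
      intro h9
      rw [h9] at h
      have : 0 < 2 ^ s := by positivity
      omega
    have h3 : s ≤ Nat.log 2 C.wires := Nat.le_log_of_pow_le (by norm_num) h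
    exact hNs.trans (Nat.mul_le_mul_left _ (by omega))
  · refine ⟨0, Fin.elim0, Nat.zero_le _, ⟨lrow _, ltgt N, fun x => solv_span _ x⟩, ?_⟩
    intro C Z _ _ _
    have h1 : N ≤ c * (t + 1) * 1 := by omega
    exact h1.trans (Nat.mul_le_mul_left _ (by omega))

end Pool.Agent.Results.MP_9a4607_lc.FewNegations
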