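import Pool.Agent.H581R2.Cmp.Asym

set_option autoImplicit false

/-! Functions with monotone circuits of linear size for which comparator circuits with few
negation gates and few copy gates need exponentially many wires. -/

namespace Pool.Agent.Results.MP_9a4607_lc.PolynomialTime

open Pool.Agent.H581R2.Cmp

theorem result (M h : ℕ) (hM : 0 < M) :
    Nat.card (Fin M × Rule h (2 * (h + 1) ^ 2)) ≤ 8 * M * (h + 1) ^ 8 ∧
    (∃ f : (Fin M × Rule h (2 * (h + 1) ^ 2) → Bool) → Bool,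
      (∀ x, f x = true ↔ SomePyr M h (2 * (h + 1) ^ 2) x) ∧
      ∃ d, MonCirc f (8 * Nat.card (Fin M × Rule h (2 * (h + 1) ^ 2))) d) ∧
    ∀ (w : ℕ) (C : Circuit (Fin M × Rule h (2 * (h + 1) ^ 2)) w),
      (∀ x, C.val x = true ↔ SomePyr M h (2 * (h + 1) ^ 2) x) →
      (2 * M ≤ 2 ^ copies C.prog * (negs C.prog * (negs C.prog + 1)) ∧ M < 2 ^ negs C.prog) ∨
        2 ^ (h + 1) ≤ 2 ^ copies C.prog * w := by
  refine ⟨exp_card M h, ?_, fun w C hC => exp_form M h C hC⟩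
  obtain ⟨f, h1, h2⟩ := upper (M := M) (h := h) (q := 2 * (h + 1) ^ 2) hM (by positivity)
    ((2 * (h + 1) ^ 2) * (2 * (h + 1) ^ 2)) (M * (2 * (h + 1) ^ 2))
    Nat.lt_two_pow_self.le Nat.lt_two_pow_self.le
  exact ⟨f, h1, _, h2⟩

end Pool.Agent.Results.MP_9a4607_lc.PolynomialTime
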