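import Pool.Agent.H581R2.Cmp.Asym

set_option autoImplicit false

/-! Functions with monotone circuits of linear size and depth `O(log N loglog N)` for which
comparator circuits of polynomial size need `N ^ (1/2 - o(1))` negation gates. -/

namespace Pool.Agent.Results.MP_9a4607_lc.ShallowFunctions

open Pool.Agent.H581R2.Cmp

theorem result :
    (∀ n : ℕ, 1 ≤ n → ∃ f : (Fin (2 ^ n ^ 2) × Rule (ht n) (2 ^ n) → Bool) → Bool,
      (∀ x, f x = true ↔ SomePyr (2 ^ n ^ 2) (ht n) (2 ^ n) x) ∧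
      MonCirc f (8 * nv n)
        (7 * (Nat.log 2 (nv n) * (Nat.log 2 (Nat.log 2 (nv n)) + 1)))) ∧
    (∀ k : ℕ, 1 ≤ k → ∃ n0 : ℕ, ∀ n ≥ n0, ∀ w ≤ nv n ^ k,
      ∀ C : Circuit (Fin (2 ^ n ^ 2) × Rule (ht n) (2 ^ n)) w,
        (∀ x, C.val x = true ↔ SomePyr (2 ^ n ^ 2) (ht n) (2 ^ n) x) →
        2 ^ (2 * k * copies C.prog) ≤ nv n →
        nv n ^ (k - 1) ≤ (negs C.prog + 1) ^ (2 * k)) := by
  refine ⟨fun n hn => ?_, quasi_form⟩
  obtain ⟨f, h1, L, d', h2, h3, h4, h5⟩ := upper (M := 2 ^ n ^ 2) (h := ht n) (q := 2 ^ n)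
    (by positivity) (by positivity) (2 * n) (n ^ 2 + n) (le_of_eq (by ring)) (le_of_eq (by ring))
  exact ⟨f, h1, L, d', h2, h3, h4, h5.trans (depth_bound n hn)⟩

end Pool.Agent.Results.MP_9a4607_lc.ShallowFunctions
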